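import Mathlib
import Pool.Agent.R849.FQ.Parts
import Pool.Agent.R849.FP.Main

set_option autoImplicit false

/-! # One parameter groups -/

namespace Pool.Agent.R849.FQ

open FF MvPolynomial Pool.Agent.W603.LV Pool.Agent.W603.PV Pool.Agent.R849.UP Pool.Agent.TH143
open Pool.Agent.R849.FC hiding bd parts
open Pool.Agent.R849.FP (bd)

variable {K : Type} [Field K] [Algebra ℂ K] [IsFF ℂ K] {R : ℕ} {τ : Type} [Fintype τ]

/-- **One parameter groups.** -/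
theorem key_fq (S : Finset (Place ℂ K)) (u : Fin R → K) (hu : ∀ j, u j ≠ 0) {M d : ℕ}
    (hM : 2 * (d + 2) ^ (2 * R) ≤ M) (Y : τ → K) {E : ℤ}
    (hE : max (canDeg ℂ K + S.card) 0 + ∑ p, hgt ℂ (Y p) ≤ E) (b : Fin R → ℤ)
    (hb : ∀ γ ∈ box d R, hgt ℂ (mo u γ) ≤ bd d R * E → ∑ j, γ j * b j = 0)
    (H : MvPolynomial (Fin R) (MvPolynomial τ ℂ)) (hH : CDeg H d)
    (hHd : H.totalDegree ≤ d + 1)
    (huS : ∀ P ∉ S, ∃ ν : ℤ, ∀ m ∈ H.support, (M : ℤ) ∣ P.ord (∏ j, u j ^ m j) - ν)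
    (h : eval₂ ((aeval Y : MvPolynomial τ ℂ →ₐ[ℂ] K) :
      MvPolynomial τ ℂ →+* K) u H = 0) (t : ℂ) (ht : t ≠ 0) :
    eval₂ ((aeval Y : MvPolynomial τ ℂ →ₐ[ℂ] K) :
      MvPolynomial τ ℂ →+* K) (fun j => u j * algebraMap ℂ K t ^ b j) H = 0 := by
  classical
  have ht' : algebraMap ℂ K t ≠ 0 := by rw [Ne, map_eq_zero]; exact ht
  have hM0 : 0 < M := lt_of_lt_of_le (by positivity) hM
  obtain ⟨s, hs⟩ : ∃ s, s = (d + 2) ^ R := ⟨_, rfl⟩
  have hsM : 2 * (s - 1) ^ 2 ≤ M := by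
    refine le_trans (Nat.mul_le_mul_left 2 ?_) hM
    rw [mul_comm 2 R, pow_mul, ← hs]
    exact Nat.pow_le_pow_left (Nat.sub_le _ _) 2
  have hexp : ∀ m ∈ H.support, ∀ j, m j ≤ d + 1 := by
    intro m hm j
    refine le_trans ?_ ((le_totalDegree hm).trans hHd)
    rw [Finsupp.sum_fintype _ _ (by simp)]
    exact Finset.single_le_sum (f := fun a => m a) (fun _ _ => Nat.zero_le _) (Finset.mem_univ j)
  have hcard : H.support.card ≤ s := hs ▸ card_exponents _ hexp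
  obtain ⟨χ, hχ⟩ : ∃ χ, χ = max (canDeg ℂ K + (S.card : ℤ)) 0 := ⟨_, rfl⟩
  obtain ⟨hY, hhY⟩ : ∃ hY, hY = ∑ p, hgt ℂ (Y p) := ⟨_, rfl⟩
  have hχ0 : 0 ≤ χ := hχ ▸ le_max_right _ _
  have hY0 : 0 ≤ hY := hhY ▸ Finset.sum_nonneg fun _ _ => hgt_nonneg _
  rw [← hχ, ← hhY] at hE
  have hc : ∀ m ∈ H.support, hgt ℂ (((aeval Y : MvPolynomial τ ℂ →ₐ[ℂ] K) :
      MvPolynomial τ ℂ →+* K) (coeff m H)) ≤ d * hY := by
    intro m _
    refine (hgt_mvpoly Y (coeff m H)).trans ?_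
    rw [← hhY]
    exact mul_le_mul_of_nonneg_right (by exact_mod_cast hH m) hY0
  obtain ⟨v, hv⟩ : ∃ v : ℕ, (tri s).toNat = v := ⟨_, rfl⟩
  have htri : tri s = (v : ℤ) := by rw [← hv, Int.toNat_of_nonneg (tri_nonneg s)]
  have hB : (s : ℤ) * (2 * tri s * (max (canDeg ℂ K + S.card) 0 +
      2 * (s * (d * hY)))) + 2 * (d * hY) ≤ bd d R * E := by
    unfold bd
    rw [← hs, ← hχ, hv, htri]
    have h3 : χ + 2 * (s * (d * hY)) ≤ (1 + 2 * (s * d)) * E := by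
      have h4 : χ ≤ E := by linarith
      have h5 : 2 * ((s : ℤ) * (d * hY)) ≤ 2 * (s * (d * E)) := by
        have : hY ≤ E := by linarith
        gcongr
      nlinarith
    have h4 : (s : ℤ) * (2 * v * (χ + 2 * (s * (d * hY)))) ≤
        s * (2 * v * ((1 + 2 * (s * d)) * E)) := by
      gcongr
    have h5 : 2 * ((d : ℤ) * hY) ≤ 2 * (d * E) := by
      have h6 : hY ≤ E := by linarith
      gcongr
    calc (s : ℤ) * (2 * v * (χ + 2 * (s * (d * hY)))) + 2 * (d * hY)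
        ≤ s * (2 * v * ((1 + 2 * (s * d)) * E)) + 2 * (d * E) := add_le_add h4 h5
      _ = ((s * (2 * v * (1 + 2 * (s * d))) + 2 * d : ℕ) : ℤ) * E := by push_cast; ring
  rw [eval₂_eq'] at h ⊢
  have hparts := parts S u hu hM0 H.support hcard huS hsM _ (by positivity) hc h hB b (by
    intro m hm m' hm' hle
    have h1 := hb (fun j => (m j : ℤ) - m' j) (mem_box.2 fun j => ?_) hle
    · simp only [sub_mul, Finset.sum_sub_distrib] at h1
      linarith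
    · have h2 := hexp m hm j
      have h3 := hexp m' hm' j
      omega)
  have h3 : ∑ m ∈ H.support, ((aeval Y : MvPolynomial τ ℂ →ₐ[ℂ] K) :
      MvPolynomial τ ℂ →+* K) (coeff m H) *
        ∏ j, (u j * algebraMap ℂ K t ^ b j) ^ m j =
      ∑ m ∈ H.support, (((aeval Y : MvPolynomial τ ℂ →ₐ[ℂ] K) :
      MvPolynomial τ ℂ →+* K) (coeff m H) * ∏ j, u j ^ m j) *
        algebraMap ℂ K t ^ (∑ j, (m j : ℤ) * b j) := by
    refine Finset.sum_congr rfl fun m hm => ?_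
    rw [mul_assoc]
    congr 1
    have h4 : algebraMap ℂ K t ^ (∑ j, (m j : ℤ) * b j) =
        ∏ j, (algebraMap ℂ K t ^ b j) ^ m j := by
      rw [zpow_sum'' ht']
      refine Finset.prod_congr rfl fun j _ => ?_
      rw [mul_comm, zpow_mul, zpow_natCast]
    rw [h4, ← Finset.prod_mul_distrib]
    exact Finset.prod_congr rfl fun j _ => by rw [mul_pow]
  rw [h3]
  exact sum_shift' H.support (fun m => ∑ j, (m j : ℤ) * b j) _ (fun v => hparts v) _

end Pool.Agent.R849.FQ
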