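import Mathlib
import Pool.Agent.R849.FQ.Main

set_option autoImplicit false

/-! # Orders of monomials -/

namespace Pool.Agent.R849.FQ

open FF MvPolynomial Pool.Agent.W603.LV Pool.Agent.W603.PV Pool.Agent.R849.UP
open Pool.Agent.R849.FC hiding bd parts

variable {K : Type} [Field K] [Algebra ℂ K] {r n : ℕ} {τ : Type}

theorem ex_hom {G : MvPolynomial (Fin n) ℂ} {e : ℕ} (h : G.IsHomogeneous e) :
    (ex G : MvPolynomial (Fin r) (MvPolynomial (Fin r × Fin n) ℂ)).IsHomogeneous e := by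
  unfold ex
  have h1 := h.aeval (fun a : Fin n => (∑ j, C (X (j, a)) * X j :
    MvPolynomial (Fin r) (MvPolynomial (Fin r × Fin n) ℂ))) (n := 1) (fun a =>
      IsHomogeneous.sum _ _ _ fun j _ => isHomogeneous_C_mul_X _ _)
  rwa [one_mul] at h1

theorem ord_prod (P : Place ℂ K) {u : Fin r → K} (hu : ∀ j, u j ≠ 0) (m : Fin r → ℕ) :
    P.ord (∏ j, u j ^ m j) = ∑ j, (m j : ℤ) * P.ord (u j) := by
  classical
  have h1 : ∀ s : Finset (Fin r), P.ord (∏ j ∈ s, u j ^ m j) = ∑ j ∈ s, (m j : ℤ) * P.ord (u j) := by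
    intro s
    induction s using Finset.induction_on with
    | empty => rw [Finset.prod_empty, Finset.sum_empty, P.ord_one]
    | insert a s ha ih =>
      rw [Finset.prod_insert ha, Finset.sum_insert ha, P.ord_mul (pow_ne_zero _ (hu a))
        (Finset.prod_ne_zero_iff.2 fun j _ => pow_ne_zero _ (hu j)), P.ord_pow, ih]
  exact h1 Finset.univ

theorem ord_ren {P : Place ℂ K} {u : Fin (r + 1) → K} (hu : ∀ j, u j ≠ 0) {M : ℕ} {μ : ℤ}
    (h : ∀ j : Fin r, (M : ℤ) ∣ P.ord (u j.succ) - μ)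
    {H : MvPolynomial (Fin r) (MvPolynomial τ ℂ)} {e : ℕ} (hH : H.IsHomogeneous e)
    {m : Fin (r + 1) →₀ ℕ} (hm : m ∈ (rename Fin.succ H).support) :
    (M : ℤ) ∣ P.ord (∏ j, u j ^ m j) - e * μ := by
  classical
  rw [support_rename_of_injective (Fin.succ_injective r), Finset.mem_image] at hm
  obtain ⟨m', hm', rfl⟩ := hm
  have h1 : (e : ℤ) = ∑ j, (m' j : ℤ) := by
    have h2 : m'.degree = e := by
      by_contra hne
      exact (mem_support_iff.1 hm') (hH.coeff_eq_zero hne)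
    rw [← h2, Finsupp.degree_eq_sum]
    push_cast
    rfl
  rw [ord_prod P hu, Fin.sum_univ_succ]
  have h2 : (Finsupp.mapDomain Fin.succ m') 0 = 0 :=
    Finsupp.mapDomain_of_notMem_range _ _ (by
      rintro ⟨j, hj⟩
      exact Fin.succ_ne_zero j hj)
  rw [h2, Nat.cast_zero, zero_mul, zero_add, h1, Finset.sum_mul, ← Finset.sum_sub_distrib]
  refine Finset.dvd_sum fun j _ => ?_
  rw [Finsupp.mapDomain_apply (Fin.succ_injective r), ← mul_sub]
  exact dvd_mul_of_dvd_right (h j) _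

theorem ren_CDeg {H : MvPolynomial (Fin r) (MvPolynomial τ ℂ)} {D : ℕ} (hH : CDeg H D) :
    CDeg (rename Fin.succ H : MvPolynomial (Fin (r + 1)) (MvPolynomial τ ℂ)) D := by
  intro m
  by_cases hm : ∃ m' : Fin r →₀ ℕ, Finsupp.mapDomain Fin.succ m' = m
  · obtain ⟨m', rfl⟩ := hm
    rw [coeff_rename_mapDomain _ (Fin.succ_injective r)]
    exact hH m'
  · rw [coeff_rename_eq_zero _ _ _ (fun u hu => absurd ⟨u, hu⟩ hm)]
    simp

end Pool.Agent.R849.FQ
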