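import Mathlib
import Pool.Agent.R849.FQ.Ren

set_option autoImplicit false

/-! # Curves whose coordinates are sums of few terms: the dichotomy -/

namespace Pool.Agent.R849.FQ

open FF MvPolynomial Pool.Agent.W603.LV Pool.Agent.W603.PV Pool.Agent.R849.UP
open Pool.Agent.R849.FC hiding bd parts
open Pool.Agent.R849.FP (bd)

/-- **The dichotomy.** -/
theorem dich_core (d r : ℕ) : ∃ A : ℕ, ∀ {N : ℕ} {ι : Type}
    (F : ι → MvPolynomial (Fin (N + 1)) ℂ)
    (_ : ∀ i, ∃ e ≤ d, (F i).IsHomogeneous e) (Q : MvPolynomial (Fin (N + 1)) ℂ) (eQ : ℕ)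
    (_ : eQ ≤ d) (_ : Q.IsHomogeneous eQ) (M : ℕ) (_ : 2 * (d + 2) ^ (2 * (r + 1)) ≤ M)
    (K : Type) [Field K] [Algebra ℂ K] [IsFF ℂ K] (S : Finset (Place ℂ K)) (u : Fin r → K)
    (ρ : Fin r → Fin (N + 1) → K) (x : Fin (N + 1) → K), (∀ j, u j ≠ 0) →
    (∀ P ∉ S, ∃ μ : ℤ, (∀ j, (M : ℤ) ∣ P.ord (u j) - μ) ∧
      (M : ℤ) ∣ P.ord (aeval x Q) - eQ * μ) →
    (∀ a, x a = ∑ j, u j * ρ j a) → x ≠ 0 →
    (∀ i, aeval x (F i) = 0) → aeval x Q ≠ 0 →
    pht ℂ x ≤ A * (max (canDeg ℂ K + S.card) 0 + ∑ j, ∑ a, hgt ℂ (ρ j a)) ∨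
    ∃ (b : Fin r → ℤ) (T : Finset (Place ℂ K)), ∀ P ∉ T, ∃ (u' : Fin r → ℂ)
      (ρ' : Fin r → Fin (N + 1) → ℂ) (w : ℂ → Fin (N + 1) → ℂ),
      (∀ j, HV P (u j) (u' j)) ∧ (∀ j a, HV P (ρ j a) (ρ' j a)) ∧ (∀ a, HV P (x a) (w 1 a)) ∧
      (∀ t a, w t a = ∑ j, ρ' j a * (u' j * t ^ b j)) ∧
      (∀ i t, t ≠ 0 → eval (w t) (F i) = 0) ∧ (∀ t, t ≠ 0 → eval (w t) Q ≠ 0) ∧
      ∃ t, t ≠ 0 ∧ ∃ a0 a1, w t a1 * w 1 a0 ≠ w t a0 * w 1 a1 := by
  classical
  obtain ⟨cm, hcm⟩ := exists_cmax (box d (r + 1))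
  refine ⟨r * (cm * bd d (r + 1)) + 1, ?_⟩
  intro N ι F hF Q eQ heQ hQh M hM K _ _ _ S u0 ρ0 x hu0 huS0 hx hx0 hxF hxQ
  have hM0 : 0 < M := lt_of_lt_of_le (by positivity) hM
  -- the terms together with `Q (x)`
  obtain ⟨u, hu, huQ, hus⟩ : ∃ u : Fin (r + 1) → K, (∀ j, u j ≠ 0) ∧
      u 0 = aeval x Q ∧ ∀ j, u (Fin.succ j) = u0 j := by
    refine ⟨Fin.cons (aeval x Q) u0, fun j => ?_, rfl, fun j => rfl⟩
    refine Fin.cases ?_ (fun j => ?_) j
    · exact hxQ
    · exact hu0 j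
  obtain ⟨Y, hY⟩ : ∃ Y : Fin r × Fin (N + 1) → K, Y = fun p => ρ0 p.1 p.2 := ⟨_, rfl⟩
  have hYs : ∑ p, hgt ℂ (Y p) = ∑ j, ∑ a, hgt ℂ (ρ0 j a) := by
    rw [hY, Fintype.sum_prod_type]
  have hxu : ∀ a, x a = ∑ j, Y (j, a) * u j.succ := by
    intro a
    rw [hx a, hY]
    exact Finset.sum_congr rfl fun j _ => by rw [hus]; exact mul_comm _ _
  obtain ⟨E, hE⟩ : ∃ E, E = max (canDeg ℂ K + (S.card : ℤ)) 0 + ∑ p, hgt ℂ (Y p) := ⟨_, rfl⟩
  rw [← hYs, ← hE]
  have hχ0 : 0 ≤ max (canDeg ℂ K + (S.card : ℤ)) 0 := le_max_right _ _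
  have hYn : 0 ≤ ∑ p, hgt ℂ (Y p) := Finset.sum_nonneg fun _ _ => hgt_nonneg _
  have hE0 : 0 ≤ E := by rw [hE]; linarith
  have hYE : ∑ p, hgt ℂ (Y p) ≤ E := by rw [hE]; linarith
  obtain ⟨B, hB⟩ : ∃ B : ℤ, B = bd d (r + 1) * E := ⟨_, rfl⟩
  have hB0 : 0 ≤ B := by rw [hB]; positivity
  -- the lattice
  obtain ⟨D, hD⟩ : ∃ D : Set (Fin (r + 1) → ℤ), D = {δ | δ ∈ box d (r + 1) ∧ hgt ℂ (mo u δ) ≤ B} :=
    ⟨_, rfl⟩
  obtain ⟨b, hb1, hb2⟩ := exists_sep (sat D) (fun M γ hM h => sat_sat D M γ hM h)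
    ((box d (r + 1)).filter (fun γ => γ ∉ sat D)) (fun p hp => (Finset.mem_filter.1 hp).2)
  have hbD : ∀ γ ∈ box d (r + 1), hgt ℂ (mo u γ) ≤ bd d (r + 1) * E →
      ∑ j, γ j * b j = 0 := by
    intro γ hγ h
    rw [← hB] at h
    exact hb1 γ (subset_sat D (by rw [hD]; exact ⟨hγ, h⟩))
  have hratio : ∀ j k, b j = b k → hgt ℂ (u j / u k) ≤ cm * B := by
    intro j k hjk
    have h1 : (Pi.single j 1 - Pi.single k 1 : Fin (r + 1) → ℤ) ∈ box d (r + 1) := by
      rw [mem_box]
      intro l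
      rw [Pi.sub_apply, Pi.single_apply, Pi.single_apply]
      split_ifs <;> constructor <;> omega
    have h2 : (Pi.single j 1 - Pi.single k 1 : Fin (r + 1) → ℤ) ∈ sat D := by
      by_contra hn
      have h3 := hb2 _ (Finset.mem_filter.2 ⟨h1, hn⟩)
      apply h3
      simp only [Pi.sub_apply, sub_mul, Finset.sum_sub_distrib, Pi.single_apply, ite_mul, one_mul,
        zero_mul, Finset.sum_ite_eq', Finset.mem_univ, if_true]
      rw [hjk, sub_self]
    rw [hD] at h2
    have h3 : hgt ℂ (mo u (Pi.single j 1 - Pi.single k 1)) ≤ cm * B :=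
      hcm (fun γ => hgt ℂ (mo u γ)) (mo_lht hu) B hB0 _ h1 h2
    have h4 : mo u (Pi.single j 1 - Pi.single k 1) = u j / u k := by
      rw [sub_eq_add_neg, mo_add hu, mo_neg, div_eq_mul_inv]
      have h5 : ∀ j, mo u (Pi.single j 1) = u j := by
        intro j
        unfold mo
        rw [Finset.prod_eq_single j]
        · rw [Pi.single_eq_same, zpow_one]
        · intro l _ hl
          rw [Pi.single_eq_of_ne hl, zpow_zero]
        · intro h; exact absurd (Finset.mem_univ j) h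
      rw [h5, h5]
    rwa [h4] at h3
  let W : ℂ → Fin (N + 1) → K := fun t a => ∑ j : Fin r, Y (j, a) * (u j.succ *
    algebraMap ℂ K t ^ b j.succ)
  have hW1 : W 1 = x := by
    funext a
    rw [hxu a]
    exact Finset.sum_congr rfl fun j _ => by rw [map_one, one_zpow, mul_one]
  have hxu' : (fun a => ∑ j : Fin r, Y (j, a) * u j.succ) = x := funext fun a => (hxu a).symm
  have hev : ∀ (v : Fin (r + 1) → K) (G : MvPolynomial (Fin (N + 1)) ℂ),
      eval₂ ((aeval Y : MvPolynomial (Fin r × Fin (N + 1)) ℂ →ₐ[ℂ] K) :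
        MvPolynomial (Fin r × Fin (N + 1)) ℂ →+* K) v (rename Fin.succ (ex G)) =
      aeval (fun a => ∑ j : Fin r, Y (j, a) * v j.succ) G := by
    intro v G
    rw [eval₂_rename, ex_aeval]
    rfl
  have hord : ∀ P ∉ S, ∃ μ : ℤ, (∀ j : Fin r, (M : ℤ) ∣ P.ord (u j.succ) - μ) ∧
      (M : ℤ) ∣ P.ord (u 0) - eQ * μ := by
    intro P hP
    obtain ⟨μ, h1, h2⟩ := huS0 P hP
    exact ⟨μ, fun j => by rw [hus]; exact h1 j, by rw [huQ]; exact h2⟩
  -- equations
  have hWF : ∀ i, ∀ t : ℂ, t ≠ 0 → aeval (W t) (F i) = 0 := by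
    intro i t ht
    obtain ⟨e, he, hFe⟩ := hF i
    have hdeg := hFe.totalDegree_le.trans he
    have h1 := key_fq S u hu (d := d) hM Y (E := E) (by rw [hE]) b hbD
      (rename Fin.succ (ex (F i))) (ren_CDeg (ex_CDeg hdeg))
      (((totalDegree_rename_le _ _).trans (ex_totalDegree hdeg)).trans (Nat.le_succ _)) (by
        intro P hP
        obtain ⟨μ, h1, -⟩ := hord P hP
        exact ⟨e * μ, fun m hm => ord_ren hu h1 (ex_hom hFe) hm⟩) (by
        rw [hev, hxu']
        exact hxF i) t ht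
    rw [hev] at h1
    exact h1
  have hWQ : ∀ t : ℂ, t ≠ 0 → aeval (W t) Q = u 0 * algebraMap ℂ K t ^ b 0 := by
    intro t ht
    have hdeg := hQh.totalDegree_le.trans heQ
    have hCX : CDeg (rename Fin.succ (ex Q) - X 0 : MvPolynomial (Fin (r + 1))
        (MvPolynomial (Fin r × Fin (N + 1)) ℂ)) d := by
      intro m
      rw [coeff_sub]
      refine (totalDegree_sub _ _).trans (max_le (ren_CDeg (ex_CDeg hdeg) m) ?_)
      exact (CDeg.X' 0 m).trans (Nat.zero_le _)
    have h1 := key_fq S u hu (d := d) hM Y (E := E) (by rw [hE]) b hbD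
      (rename Fin.succ (ex Q) - X 0) hCX
      ((totalDegree_sub _ _).trans (max_le
        (((totalDegree_rename_le _ _).trans (ex_totalDegree hdeg)).trans (Nat.le_succ _))
        (by rw [totalDegree_X]; omega))) (by
        intro P hP
        obtain ⟨μ, h1, h2⟩ := hord P hP
        refine ⟨eQ * μ, fun m hm => ?_⟩
        by_cases hm1 : m ∈ (rename Fin.succ (ex Q) : MvPolynomial (Fin (r + 1))
            (MvPolynomial (Fin r × Fin (N + 1)) ℂ)).support
        · exact ord_ren hu h1 (ex_hom hQh) hm1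
        · rw [mem_support_iff, coeff_sub, notMem_support_iff.1 hm1, zero_sub, coeff_X] at hm
          have hm2 : Finsupp.single 0 1 = m := by
            by_contra hne
            apply hm
            rw [if_neg hne, neg_zero]
          rw [← hm2, Fin.prod_univ_succ]
          have h3 : ∏ i : Fin r, u i.succ ^ (Finsupp.single (0 : Fin (r + 1)) 1) i.succ = 1 :=
            Finset.prod_eq_one fun i _ => by
              rw [Finsupp.single_eq_of_ne (Fin.succ_ne_zero i), pow_zero]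
          rw [h3, mul_one, Finsupp.single_eq_same, pow_one]
          exact h2) (by
        rw [eval₂_sub, eval₂_X, hev, hxu', huQ, sub_self]) t ht
    rw [eval₂_sub, eval₂_X, hev, sub_eq_zero] at h1
    exact h1
  by_cases hnc : ∃ t : ℂ, t ≠ 0 ∧ ∃ a0 a1, W t a1 * x a0 - W t a0 * x a1 ≠ 0
  · -- many curves
    right
    obtain ⟨t0, ht0, a0, a1, hDne⟩ := hnc
    obtain ⟨T1, hT1⟩ := exists_supp (k := ℂ) Finset.univ u
    obtain ⟨T2, hT2⟩ := exists_supp (k := ℂ) Finset.univ Y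
    obtain ⟨T3, hT3⟩ := exists_supp (k := ℂ) (Finset.univ : Finset (Fin 1))
      ![W t0 a1 * x a0 - W t0 a0 * x a1]
    refine ⟨fun j => b j.succ, T1 ∪ T2 ∪ T3, fun P hP => ?_⟩
    rw [Finset.mem_union, Finset.mem_union, not_or, not_or] at hP
    have hPu : ∀ j, P.ord (u j) = 0 := fun j => by
      by_contra h; exact hP.1.1 (hT1 j (Finset.mem_univ _) P h)
    have hPY : ∀ p, P.ord (Y p) = 0 := fun p => by
      by_contra h; exact hP.1.2 (hT2 p (Finset.mem_univ _) P h)
    have hPD : P.ord (W t0 a1 * x a0 - W t0 a0 * x a1) = 0 := by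
      by_contra h; exact hP.2 (hT3 0 (Finset.mem_univ _) P h)
    choose u' hu' using fun j => exists_hv (P := P) (Or.inr (hPu j).ge : Ge P 0 (u j))
    choose Y' hY' using fun p => exists_hv (P := P) (Or.inr (hPY p).ge : Ge P 0 (Y p))
    let w : ℂ → Fin (N + 1) → ℂ := fun t a => ∑ j : Fin r, Y' (j, a) * (u' j.succ * t ^ b j.succ)
    have hw : ∀ t a, HV P (W t a) (w t a) := by
      intro t a
      refine HV.sum _ fun j _ => (hY' _).mul ((hu' _).mul ?_)
      rw [← map_zpow₀]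
      exact hv_const _
    refine ⟨fun j => u' j.succ, fun j a => Y' (j, a), w, fun j => ?_, fun j a => ?_,
      fun a => ?_, fun t a => rfl, fun i t ht => ?_, fun t ht => ?_, ⟨t0, ht0, a0, a1, ?_⟩⟩
    · rw [← hus j]
      exact hu' _
    · have h1 := hY' (j, a)
      rw [hY] at h1
      exact h1
    · have h1 := hw 1 a
      rw [hW1] at h1
      exact h1
    · have h1 := HV.aeval (hw t) (F i)
      rw [hWF i t ht] at h1
      exact h1.eq_zero
    · have h1 := HV.aeval (hw t) Q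
      rw [hWQ t ht, ← map_zpow₀] at h1
      have h2 := h1.unique ((hu' 0).mul (hv_const (t ^ b 0)))
      rw [h2]
      exact mul_ne_zero ((hu' 0).ne_zero (hu 0) (hPu 0)) (zpow_ne_zero _ ht)
    · have h1 := ((hw t0 a1).mul (hw 1 a0)).sub ((hw t0 a0).mul (hw 1 a1))
      rw [hW1] at h1
      exact sub_ne_zero.1 (h1.ne_zero hDne hPD)
  · -- small degree
    left
    push Not at hnc
    obtain ⟨as, has⟩ := Function.ne_iff.1 hx0
    rw [Pi.zero_apply] at has
    let y : ℤ → Fin (N + 1) → K := fun c a =>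
      ∑ j ∈ Finset.univ.filter (fun j : Fin r => b j.succ = c), Y (j, a) * u j.succ
    have hy : ∀ a0 a1 c, y c a1 * x a0 = y c a0 * x a1 := by
      intro a0 a1 c
      have h1 := coeff_zero' Finset.univ (fun j : Fin r => b j.succ)
        (fun j => Y (j, a1) * u j.succ * x a0 -
        Y (j, a0) * u j.succ * x a1) (fun t ht => by
          rw [← hnc t ht a0 a1]
          simp only [W]
          rw [Finset.sum_mul, Finset.sum_mul, ← Finset.sum_sub_distrib]
          exact Finset.sum_congr rfl fun j _ => by ring) c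
      rw [Finset.sum_sub_distrib, ← Finset.sum_mul, ← Finset.sum_mul] at h1
      exact sub_eq_zero.1 h1
    obtain ⟨c, hc⟩ : ∃ c, y c as ≠ 0 := by
      by_contra hcon
      push Not at hcon
      apply has
      rw [hxu as, ← Finset.sum_fiberwise_of_maps_to
        (t := Finset.univ.image (fun j : Fin r => b j.succ)) (g := fun j : Fin r => b j.succ)
        (fun j hj => Finset.mem_image_of_mem _ hj)]
      exact Finset.sum_eq_zero fun c _ => hcon c
    obtain ⟨k, hk⟩ : ∃ k : Fin r, b k.succ = c := by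
      by_contra hcon2
      push Not at hcon2
      apply hc
      show ∑ j ∈ Finset.univ.filter (fun j : Fin r => b j.succ = c), Y (j, as) * u j.succ = 0
      rw [Finset.filter_false_of_mem (fun j _ => hcon2 j), Finset.sum_empty]
    have hlne : y c as / (x as * u k.succ) ≠ 0 := div_ne_zero hc (mul_ne_zero has (hu _))
    have h1 := pht_bound x ⟨as, has⟩ hlne
      (fun j : Fin r => if b j.succ = c then u j.succ / u k.succ else 0) Y (by
      intro a
      have h2 : y c a = y c as / x as * x a := by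
        have h3 := hy as a c
        field_simp
        linear_combination h3
      have h3 : y c as / (x as * u k.succ) * x a = y c a / u k.succ := by
        rw [h2]
        have := hu k.succ
        field_simp
      rw [h3]
      show (∑ j ∈ Finset.univ.filter (fun j : Fin r => b j.succ = c), Y (j, a) * u j.succ) /
        u k.succ = _
      rw [Finset.sum_div, Finset.sum_filter]
      refine Finset.sum_congr rfl fun j _ => ?_
      split_ifs
      · rw [mul_div_assoc]
      · rw [mul_zero])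
    have h2 : ∑ j : Fin r, hgt ℂ (if b j.succ = c then u j.succ / u k.succ else 0) ≤
        r * (cm * B) := by
      have h3 : ∀ j ∈ (Finset.univ : Finset (Fin r)),
          hgt ℂ (if b j.succ = c then u j.succ / u k.succ else 0) ≤ cm * B := by
        intro j _
        split_ifs with hj
        · exact hratio j.succ k.succ (hj.trans hk.symm)
        · rw [hgt_zero]
          positivity
      refine (Finset.sum_le_sum h3).trans ?_
      rw [Finset.sum_const, Finset.card_univ, Fintype.card_fin, nsmul_eq_mul]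
    refine h1.trans ((add_le_add h2 hYE).trans (le_of_eq ?_))
    rw [hB]
    push_cast
    ring

end Pool.Agent.R849.FQ
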