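import Mathlib
import Pool.Agent.R849.FC.Conv
import Pool.Agent.W603.PV.Ext

set_option autoImplicit false

/-! # Rational functions with few terms -/

namespace Pool.Agent.R849.FQ

open FF MvPolynomial Pool.Agent.W603.LV Pool.Agent.W603.PV Pool.Agent.R849.FC
open Pool.Agent.W603.CX (hgt_le_pht)
open IntermediateField

theorem HV.inv {K : Type} [Field K] [Algebra ℂ K] {P : Place ℂ K} {f : K} {c : ℂ}
    (h : HV P f c) (hc : c ≠ 0) : HV P f⁻¹ c⁻¹ := by
  obtain ⟨hf, hP⟩ := h.unit hc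
  have hc0 : algebraMap ℂ K c ≠ 0 := by rw [Ne, map_eq_zero]; exact hc
  unfold HV at *
  have h1 : Ge P 0 (f⁻¹ * algebraMap ℂ K (-c⁻¹)) := by
    have h2 : Ge P 0 f⁻¹ := Or.inr (by rw [P.ord_inv, hP]; simp)
    have h3 := h2.mul (Ge.const (P := P) (-c⁻¹))
    rwa [add_zero] at h3
  have h4 := h.mul h1
  rw [add_zero] at h4
  have h5 : f⁻¹ - algebraMap ℂ K c⁻¹ = (f - algebraMap ℂ K c) * (f⁻¹ * algebraMap ℂ K (-c⁻¹)) := by
    rw [map_neg, map_inv₀]
    field_simp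
    ring
  rw [h5]
  exact h4

theorem HV.zpow {K : Type} [Field K] [Algebra ℂ K] {P : Place ℂ K} {f : K} {c : ℂ}
    (h : HV P f c) (hc : c ≠ 0) (m : ℤ) : HV P (f ^ m) (c ^ m) := by
  rcases m with m | m
  · simpa using h.pow m
  · rw [zpow_negSucc, zpow_negSucc]
    exact HV.inv (h.pow _) (pow_ne_zero _ hc)

/-- the places of the projective line -/
theorem place_at (c : ℂ) : ∃ P : Place ℂ (RatFunc ℂ), HV P RatFunc.X c := by
  have htc : Transcendental ℂ ((RatFunc.X : RatFunc ℂ) - algebraMap ℂ (RatFunc ℂ) c) := by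
    intro h
    apply RatFunc.transcendental_X (K := ℂ)
    have h1 := h.add (isAlgebraic_algebraMap c)
    rwa [sub_add_cancel] at h1
  obtain ⟨S, hS, -, hS3⟩ := zeros (k := ℂ) htc
  have h2 := IsFF.finite htc
  have h3 : 0 < Module.finrank ℂ⟮(RatFunc.X : RatFunc ℂ) - algebraMap ℂ (RatFunc ℂ) c⟯
      (RatFunc ℂ) := Module.finrank_pos
  rw [← hS3] at h3
  obtain ⟨w, hw, -⟩ := Finset.exists_ne_zero_of_sum_ne_zero h3.ne'
  exact ⟨w, Or.inr ((hS w).1 hw)⟩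

/-- the value of the coordinate off `ZP` -/
theorem value_X {P : Place ℂ (RatFunc ℂ)} (hP : P ∉ ZP) :
    ∃ s : ℂ, s ≠ 0 ∧ HV P (RatFunc.X : RatFunc ℂ) s := by
  rw [mem_ZP, not_not] at hP
  obtain ⟨c, hc⟩ := exists_hv (P := P) (Or.inr hP.ge : Ge P 0 (RatFunc.X : RatFunc ℂ))
  exact ⟨c, hc.ne_zero RatFunc.X_ne_zero hP, hc⟩

variable {n r : ℕ}

/-- a rational curve with few terms, composed with the `k`-th power map -/
noncomputable def few (c : Fin r → Fin (n + 1) → ℂ) (b : Fin r → ℤ) (k : ℕ) :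
    Fin (n + 1) → RatFunc ℂ := fun a =>
  ∑ j, algebraMap ℂ (RatFunc ℂ) (c j a) * (RatFunc.X : RatFunc ℂ) ^ (k * b j)

theorem few_hv (c : Fin r → Fin (n + 1) → ℂ) (b : Fin r → ℤ) (k : ℕ)
    {w : ℂ → Fin (n + 1) → ℂ} (hw : ∀ t a, w t a = ∑ j, c j a * t ^ b j)
    {P : Place ℂ (RatFunc ℂ)} {s : ℂ} (hs : s ≠ 0) (h : HV P (RatFunc.X : RatFunc ℂ) s)
    (a : Fin (n + 1)) : HV P (few c b k a) (w (s ^ k) a) := by
  unfold few
  rw [hw]
  refine HV.sum _ fun j _ => (hv_const _).mul ?_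
  have h1 := HV.zpow h hs (k * b j)
  have h2 : (s ^ k) ^ b j = s ^ ((k : ℤ) * b j) := by rw [zpow_mul, zpow_natCast]
  rw [h2]
  exact h1

/-- values of forms -/
theorem few_eval (c : Fin r → Fin (n + 1) → ℂ) (b : Fin r → ℤ) (k : ℕ)
    {w : ℂ → Fin (n + 1) → ℂ} (hw : ∀ t a, w t a = ∑ j, c j a * t ^ b j)
    {P : Place ℂ (RatFunc ℂ)} {s : ℂ} (hs : s ≠ 0) (h : HV P (RatFunc.X : RatFunc ℂ) s)
    (H : MvPolynomial (Fin (n + 1)) ℂ) :
    HV P (aeval (few c b k) H) (eval (w (s ^ k)) H) :=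
  HV.aeval (fun a => few_hv c b k hw hs h a) H

/-- equations -/
theorem few_zero (c : Fin r → Fin (n + 1) → ℂ) (b : Fin r → ℤ) (k : ℕ)
    {w : ℂ → Fin (n + 1) → ℂ} (hw : ∀ t a, w t a = ∑ j, c j a * t ^ b j)
    (H : MvPolynomial (Fin (n + 1)) ℂ) (h : ∀ t, t ≠ 0 → eval (w t) H = 0) :
    aeval (few c b k) H = 0 := by
  classical
  by_contra hne
  obtain ⟨T, hT⟩ := exists_supp (k := ℂ) (Finset.univ : Finset (Fin 1)) ![aeval (few c b k) H]
  obtain ⟨P, hP⟩ := exists_place (T ∪ ZP)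
  rw [Finset.mem_union, not_or] at hP
  have hP0 : P.ord (aeval (few c b k) H) = 0 := by
    by_contra h; exact hP.1 (hT 0 (Finset.mem_univ _) P h)
  obtain ⟨s, hs, hX⟩ := value_X hP.2
  exact (few_eval c b k hw hs hX H).ne_zero hne hP0 (h _ (pow_ne_zero _ hs))

/-- forms which do not vanish -/
theorem few_ne (c : Fin r → Fin (n + 1) → ℂ) (b : Fin r → ℤ) (k : ℕ)
    {w : ℂ → Fin (n + 1) → ℂ} (hw : ∀ t a, w t a = ∑ j, c j a * t ^ b j)
    (H : MvPolynomial (Fin (n + 1)) ℂ) (h : eval (w 1) H ≠ 0) :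
    aeval (few c b k) H ≠ 0 := by
  obtain ⟨P, hP⟩ := place_at 1
  have h1 := few_eval c b k hw one_ne_zero hP H
  rw [one_pow] at h1
  exact (h1.unit h).1

/-- a ratio of coordinates which is not constant -/
theorem few_ratio (c : Fin r → Fin (n + 1) → ℂ) (b : Fin r → ℤ) {k : ℕ} (hk : 0 < k)
    {w : ℂ → Fin (n + 1) → ℂ} (hw : ∀ t a, w t a = ∑ j, c j a * t ^ b j) {a0 a1 : Fin (n + 1)}
    (hnc : ∃ t, t ≠ 0 ∧ w t a1 * w 1 a0 ≠ w t a0 * w 1 a1) :
    few c b k a0 ≠ 0 ∧ few c b k a1 ≠ 0 ∧ Transcendental ℂ (few c b k a1 / few c b k a0) := by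
  obtain ⟨t0, ht0, hne⟩ := hnc
  -- linear relations between two coordinates
  have key : ∀ x y : ℂ, algebraMap ℂ (RatFunc ℂ) x * few c b k a0 =
      algebraMap ℂ (RatFunc ℂ) y * few c b k a1 → (x = 0 ∧ y = 0) := by
    intro x y hxy
    have h1 : ∀ t : ℂ, t ≠ 0 → x * w t a0 = y * w t a1 := by
      intro t ht
      obtain ⟨s, hs⟩ := IsAlgClosed.exists_pow_nat_eq t hk
      have hs0 : s ≠ 0 := by
        rintro rfl
        rw [zero_pow hk.ne'] at hs
        exact ht hs.symm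
      obtain ⟨P, hP⟩ := place_at s
      have h2 := (hv_const (P := P) x).mul (few_hv c b k hw hs0 hP a0)
      have h3 := (hv_const (P := P) y).mul (few_hv c b k hw hs0 hP a1)
      rw [hxy] at h2
      rw [hs] at h2 h3
      exact h2.unique h3
    have h2 := h1 t0 ht0
    have h3 := h1 1 one_ne_zero
    constructor
    · by_contra hx
      apply hne
      apply mul_left_cancel₀ hx
      linear_combination (w t0 a1) * h3 - (w 1 a1) * h2
    · by_contra hy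
      apply hne
      apply mul_left_cancel₀ hy
      linear_combination (w t0 a0) * h3 - (w 1 a0) * h2
  have h0 : few c b k a0 ≠ 0 := by
    intro h
    have := (key 1 0 (by rw [h, map_zero, mul_zero, zero_mul])).1
    exact one_ne_zero this
  have h1 : few c b k a1 ≠ 0 := by
    intro h
    have := (key 0 1 (by rw [h, map_zero, mul_zero, zero_mul])).2
    exact one_ne_zero this
  refine ⟨h0, h1, fun halg => ?_⟩
  have h2 := IsAlgClosed.degree_eq_one_of_irreducible ℂ (minpoly.irreducible halg.isIntegral)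
  obtain ⟨z, hz⟩ := minpoly.mem_range_of_degree_eq_one ℂ _ h2
  have h3 : algebraMap ℂ (RatFunc ℂ) z * few c b k a0 =
      algebraMap ℂ (RatFunc ℂ) 1 * few c b k a1 := by
    have h4 : few c b k a1 / few c b k a0 = algebraMap ℂ (RatFunc ℂ) z := hz.symm
    rw [div_eq_iff h0] at h4
    rw [map_one, one_mul, h4]
  exact one_ne_zero (key z 1 h3).2

/-- the degree grows -/
theorem few_pht (c : Fin r → Fin (n + 1) → ℂ) (b : Fin r → ℤ) {k : ℕ} (hk : 0 < k)
    {w : ℂ → Fin (n + 1) → ℂ} (hw : ∀ t a, w t a = ∑ j, c j a * t ^ b j) {a0 a1 : Fin (n + 1)}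
    (hnc : ∃ t, t ≠ 0 ∧ w t a1 * w 1 a0 ≠ w t a0 * w 1 a1) :
    (k : ℤ) ≤ pht ℂ (few c b k) := by
  obtain ⟨h0, h1, h2⟩ := few_ratio c b hk hw hnc
  have hX0 : (RatFunc.X : RatFunc ℂ) ≠ 0 := RatFunc.X_ne_zero
  have hT : Transcendental ℂ ((RatFunc.X : RatFunc ℂ) ^ k) :=
    RatFunc.transcendental_X.pow hk
  have h3 : (k : ℤ) ≤ hgt ℂ ((RatFunc.X : RatFunc ℂ) ^ k) := by
    rw [hgt_pow hX0]
    have h4 : (k : ℤ) * 1 ≤ k * hgt ℂ (RatFunc.X : RatFunc ℂ) :=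
      mul_le_mul_of_nonneg_left hgt_X (by positivity)
    linarith
  refine h3.trans (le_trans (hgt_sub_ge hT h2 ?_) (hgt_le_pht (few c b k) h1 h0))
  have h4 : ∀ a, few c b k a ∈ ℂ⟮(RatFunc.X : RatFunc ℂ) ^ k⟯ := by
    intro a
    unfold few
    refine sum_mem fun j _ => mul_mem (IntermediateField.algebraMap_mem _ _) ?_
    rw [zpow_mul, zpow_natCast]
    exact zpow_mem (mem_adjoin_simple_self ℂ _) _
  exact div_mem (h4 _) (h4 _)

end Pool.Agent.R849.FQ
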