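import Mathlib
import Pool.Agent.R849.FQ.Lines
import Pool.Agent.Results.MP_70ba79_ag.SparseCurves

set_option autoImplicit false

/-! # Curves with few terms in varieties of log general type -/

namespace Pool.Agent.R849.FQ

open FF MvPolynomial Pool.Agent.W603.LV Pool.Agent.W603.PV Pool.Agent.R849.FC
open Pool.Agent.Results.MP_70ba79_ag.SparseCurves

/-- the bound for the degrees of the curves whose coordinates are sums of `r` units -/
def UnitBound {n g q : ℕ} (r : ℕ) (G : Fin g → MvPolynomial (Fin (n + 1)) ℂ)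
    (E : Fin q → Fin 1 → MvPolynomial (Fin (n + 1)) ℂ) (d : Fin q → Fin 1 → ℕ)
    (Φ : MvPolynomial (Fin (n + 1)) ℂ) (B : ℝ) : Prop :=
  ∀ (L : Type) [Field L] [Algebra ℂ L] [IsFF ℂ L] (S : Finset (Place ℂ L))
    (x : Fin (n + 1) → L) (t : Fin (n + 1) → Fin r → L), OnX G x →
    NonConstant ℂ x → (∀ i, ∃ j, aeval x (E i j) ≠ 0) →
    (∀ P : Place ℂ L, P ∉ S → ∀ i, localHeight (E i) (d i) P x ≤ 0) → aeval x Φ ≠ 0 →
    (∀ c, x c = ∑ j, t c j) → (∀ P ∈ unequal ℂ t, P ∈ S) →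
      (height ℂ x : ℝ) ≤ B * ((canDeg ℂ L + S.card) + 2)

/-- curves with few terms lie in `Φ = 0` -/
theorem gm_in {n g q r : ℕ} {G : Fin g → MvPolynomial (Fin (n + 1)) ℂ}
    {E : Fin q → Fin 1 → MvPolynomial (Fin (n + 1)) ℂ} {d : Fin q → Fin 1 → ℕ}
    {Φ : MvPolynomial (Fin (n + 1)) ℂ} {B : ℝ} (hB : UnitBound r G E d Φ B)
    {w : ℂ → Fin (n + 1) → ℂ} {c : Fin r → Fin (n + 1) → ℂ} {b : Fin r → ℤ}
    (hw : ∀ t a, w t a = ∑ j, c j a * t ^ b j)
    (hG : ∀ i t, t ≠ 0 → eval (w t) (G i) = 0) (hE : ∀ i t, t ≠ 0 → eval (w t) (E i 0) ≠ 0)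
    (hnc : ∃ t, t ≠ 0 ∧ ∃ a0 a1, w t a1 * w 1 a0 ≠ w t a0 * w 1 a1) : eval (w 1) Φ = 0 := by
  classical
  by_contra hΦ
  obtain ⟨t0, ht0, a0, a1, hne⟩ := hnc
  obtain ⟨k, hk⟩ := exists_nat_gt (B * ((canDeg ℂ (RatFunc ℂ) + (ZP.card : ℤ)) + 2))
  have hk1 : 0 < k + 1 := Nat.succ_pos k
  obtain ⟨h0, h1, h2⟩ := few_ratio c b hk1 hw ⟨t0, ht0, hne⟩
  have hval : ∀ P : Place ℂ (RatFunc ℂ), P ∉ ZP → ∃ s : ℂ, s ≠ 0 ∧
      HV P (RatFunc.X : RatFunc ℂ) s := fun P hP => value_X hP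
  have h3 := hB (RatFunc ℂ) ZP (few c b (k + 1)) (fun a j => algebraMap ℂ (RatFunc ℂ) (c j a) *
    (RatFunc.X : RatFunc ℂ) ^ (((k + 1 : ℕ) : ℤ) * b j))
    (fun i => few_zero c b (k + 1) hw (G i) (hG i))
    (by
      rintro ⟨z, A, hz⟩
      apply h2
      have hA : A ≠ 0 := by
        intro h
        apply h0
        rw [hz, h, mul_zero]
      have hz0 : algebraMap ℂ (RatFunc ℂ) (z a0) ≠ 0 := by
        intro h
        apply h0
        rw [hz, h, zero_mul]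
      have h4 : few c b (k + 1) a1 / few c b (k + 1) a0 = algebraMap ℂ (RatFunc ℂ) (z a1 / z a0) := by
        rw [hz a0, hz a1, map_div₀]
        field_simp
      rw [h4]
      exact isAlgebraic_algebraMap _)
    (fun i => ⟨0, few_ne c b (k + 1) hw (E i 0) (hE i 1 one_ne_zero)⟩)
    (by
      intro P hP i
      obtain ⟨s, hs, hX⟩ := hval P hP
      have h4 := few_eval c b (k + 1) hw hs hX (E i 0)
      obtain ⟨h5, h6⟩ := h4.unit (hE i _ (pow_ne_zero _ hs))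
      have h7 : 0 ≤ minOrd P (few c b (k + 1)) := by
        unfold minOrd
        have : Nonempty {a // few c b (k + 1) a ≠ 0} := ⟨⟨a0, h0⟩⟩
        refine le_ciInf fun a => ?_
        rcases (few_hv c b (k + 1) hw hs hX a.1).ge with h | h
        · exact absurd h a.2
        · exact h
      refine le_trans (ciInf_le (Finite.bddBelow_range _)
        (⟨0, h5⟩ : {j : Fin 1 // aeval (few c b (k + 1)) (E i j) ≠ 0})) ?_
      show P.ord (aeval (few c b (k + 1)) (E i 0)) - d i 0 * minOrd P (few c b (k + 1)) ≤ 0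
      rw [h6]
      have : 0 ≤ (d i 0 : ℤ) * minOrd P (few c b (k + 1)) := mul_nonneg (by positivity) h7
      linarith)
    (few_ne c b (k + 1) hw Φ hΦ) (fun a => rfl)
    (by
      rintro P ⟨a, j, a', j', h4, h5, h6⟩
      by_contra hP
      apply h6
      rw [mem_ZP, not_not] at hP
      have h7 : ∀ a j, algebraMap ℂ (RatFunc ℂ) (c j a) *
          (RatFunc.X : RatFunc ℂ) ^ (((k + 1 : ℕ) : ℤ) * b j) ≠ 0 → P.ord (algebraMap ℂ (RatFunc ℂ)
            (c j a) * (RatFunc.X : RatFunc ℂ) ^ (((k + 1 : ℕ) : ℤ) * b j)) = 0 := by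
        intro a j h
        have h8 : c j a ≠ 0 := by
          intro h9
          apply h
          rw [h9, map_zero, zero_mul]
        rw [P.ord_mul (left_ne_zero_of_mul h) (right_ne_zero_of_mul h), P.ord_const h8,
          P.ord_zpow, hP, mul_zero, add_zero]
      rw [h7 a j h4, h7 a' j' h5])
  have h4 := few_pht c b hk1 hw ⟨t0, ht0, hne⟩
  have h5 : height ℂ (few c b (k + 1)) = pht ℂ (few c b (k + 1)) := rfl
  rw [h5] at h3
  have h6 : ((k + 1 : ℕ) : ℝ) ≤ (pht ℂ (few c b (k + 1)) : ℝ) := by exact_mod_cast h4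
  push_cast at h6 h3 hk
  linarith

/-- the closed set for a pair of log general type -/
theorem exists_bound {N s g q r m : ℕ} (hm : m = N + 1 + s)
    (G : Fin g → MvPolynomial (Fin m) ℂ) (e : Fin g → ℕ)
    (hG : ∀ j, (G j).IsHomogeneous (e j))
    (E : Fin q → Fin 1 → MvPolynomial (Fin m) ℂ) (d : Fin q → Fin 1 → ℕ)
    (hE : ∀ i j, (E i j).IsHomogeneous (d i j)) (hdim : DimGE N G) (hsm : SmoothPair s G E)
    (hirr : Irred G) (hlgt : LogGeneralType N G E d) :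
    ∃ (Φ : MvPolynomial (Fin m) ℂ) (a : ℕ) (B : ℝ),
      Φ.IsHomogeneous a ∧ (∃ z : Fin m → ℂ, OnX G z ∧ aeval z Φ ≠ 0) ∧
      ∀ (L : Type) [Field L] [Algebra ℂ L] [IsFF ℂ L] (S : Finset (Place ℂ L))
        (x : Fin m → L) (t : Fin m → Fin r → L), OnX G x →
        NonConstant ℂ x → (∀ i, ∃ j, aeval x (E i j) ≠ 0) →
        (∀ P : Place ℂ L, P ∉ S → ∀ i, localHeight (E i) (d i) P x ≤ 0) → aeval x Φ ≠ 0 →
        (∀ c, x c = ∑ j, t c j) → (∀ P ∈ unequal ℂ t, P ∈ S) →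
          (height ℂ x : ℝ) ≤ B * ((canDeg ℂ L + S.card) + 2) := by
  subst hm
  exact (result N s g q 1 r G e hG E d hE hdim hsm).2 hirr hlgt

end Pool.Agent.R849.FQ
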