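import Mathlib
import Pool.Agent.R849.FQ.Dich
import Pool.Agent.R849.FQ.Gen

set_option autoImplicit false

/-! # Degrees of curves in varieties of log general type -/

namespace Pool.Agent.R849.FQ

open FF MvPolynomial Pool.Agent.W603.LV Pool.Agent.W603.PV
open Pool.Agent.R849.FC hiding bd parts
open Pool.Agent.Results.MP_70ba79_ag.SparseCurves

/-- `K` is the function field of a smooth projective curve, `S` a finite set of its places, and `x`
is a vector of rational functions on the curve with `G (x) = 0`, `E i (x) ≠ 0`. The coordinates are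
the sums `∑ u_j ρ_(j,a)`. For every place outside `S` there is a number `μ` such that the orders of
the `u_j` are `μ` modulo `M` and the order of every `E i (x)` is `d i * μ` modulo `M`. -/
structure PowerCurve {n g q : ℕ} (G : Fin g → MvPolynomial (Fin (n + 1)) ℂ)
    (E : Fin q → MvPolynomial (Fin (n + 1)) ℂ) (d : Fin q → ℕ) {K : Type} [Field K] [Algebra ℂ K]
    {r : ℕ} (M : ℕ) (S : Finset (Place ℂ K)) (u : Fin r → K) (ρ : Fin r → Fin (n + 1) → K)
    (x : Fin (n + 1) → K) : Prop where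
  ne : ∀ j, u j ≠ 0
  power : ∀ P ∉ S, ∃ μ : ℤ, (∀ j, (M : ℤ) ∣ P.ord (u j) - μ) ∧
    ∀ i, (M : ℤ) ∣ P.ord (aeval x (E i)) - d i * μ
  coord : ∀ a, x a = ∑ j, u j * ρ j a
  nonzero : x ≠ 0
  mem : ∀ i, aeval x (G i) = 0
  off : ∀ i, aeval x (E i) ≠ 0

/-- the degree bound for curves outside `Φ = 0` -/
theorem deg_bound (δ r : ℕ) : ∃ A : ℕ, ∀ {n g q : ℕ} (G : Fin g → MvPolynomial (Fin (n + 1)) ℂ)
    (e : Fin g → ℕ) (_ : ∀ j, (G j).IsHomogeneous (e j)) (_ : ∀ j, e j ≤ δ)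
    (E : Fin q → MvPolynomial (Fin (n + 1)) ℂ) (d : Fin q → ℕ)
    (_ : ∀ i, (E i).IsHomogeneous (d i)) (_ : ∑ i, d i ≤ δ)
    (Φ : MvPolynomial (Fin (n + 1)) ℂ) (B : ℝ)
    (_ : UnitBound r G (fun i _ => E i) (fun i _ => d i) Φ B)
    (M : ℕ) (_ : 2 * (δ + 2) ^ (2 * (r + 1)) ≤ M)
    (K : Type) [Field K] [Algebra ℂ K] [IsFF ℂ K] (S : Finset (Place ℂ K)) (u : Fin r → K)
    (ρ : Fin r → Fin (n + 1) → K) (x : Fin (n + 1) → K), PowerCurve G E d M S u ρ x →
    aeval x Φ ≠ 0 →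
    height ℂ x ≤ A * (max (canDeg ℂ K + S.card) 0 + ∑ j, ∑ a, hgt ℂ (ρ j a)) := by
  classical
  obtain ⟨A, hA⟩ := dich_core δ r
  refine ⟨A, ?_⟩
  intro n g q G e hG he E d hE hd Φ B hB M hM K _ _ _ S u ρ x hx hΦ
  have hQh : (∏ i, E i).IsHomogeneous (∑ i, d i) := IsHomogeneous.prod _ _ _ fun i _ => hE i
  have hordprod : ∀ P : Place ℂ K, ∀ s : Finset (Fin q),
      P.ord (∏ i ∈ s, aeval x (E i)) = ∑ i ∈ s, P.ord (aeval x (E i)) := by
    intro P s
    induction s using Finset.induction_on with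
    | empty => rw [Finset.prod_empty, Finset.sum_empty, P.ord_one]
    | insert a s ha ih =>
      rw [Finset.prod_insert ha, Finset.sum_insert ha, P.ord_mul (hx.off a)
        (Finset.prod_ne_zero_iff.2 fun j _ => hx.off j), ih]
  rcases hA G (fun i => ⟨e i, he i, hG i⟩) (∏ i, E i) (∑ i, d i) hd hQh M hM K S u ρ x hx.ne (by
    intro P hP
    obtain ⟨μ, h1, h2⟩ := hx.power P hP
    refine ⟨μ, h1, ?_⟩
    rw [map_prod, hordprod, Nat.cast_sum, Finset.sum_mul, ← Finset.sum_sub_distrib]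
    exact Finset.dvd_sum fun i _ => h2 i) hx.coord hx.nonzero hx.mem (by
    rw [map_prod]
    exact Finset.prod_ne_zero_iff.2 fun i _ => hx.off i) with h | ⟨b, T, h⟩
  · exact h
  · exfalso
    obtain ⟨T1, hT1⟩ := exists_supp (k := ℂ) (Finset.univ : Finset (Fin 1)) ![aeval x Φ]
    obtain ⟨P, hP⟩ := exists_place (T ∪ T1)
    rw [Finset.mem_union, not_or] at hP
    have hPG : P.ord (aeval x Φ) = 0 := by
      by_contra h; exact hP.2 (hT1 0 (Finset.mem_univ _) P h)
    obtain ⟨u', ρ', w, -, -, h3, h4, h5, h6, h7⟩ := h P hP.1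
    refine (HV.aeval h3 Φ).ne_zero hΦ hPG ?_
    refine gm_in hB (w := w) (c := fun j a => ρ' j a * u' j) (b := b) (fun t a => ?_)
      (fun i t ht => h5 i t ht) (fun i t ht => ?_) h7
    · rw [h4]
      exact Finset.sum_congr rfl fun j _ => (mul_assoc _ _ _).symm
    · have h8 := h6 t ht
      rw [map_prod] at h8
      exact Finset.prod_ne_zero_iff.1 h8 i (Finset.mem_univ i)

end Pool.Agent.R849.FQ
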